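import Pool.Agent.TH528.GN.Degen

/-!
# The factorization norm of graphs without `C_{2k}`

Let `A` be the adjacency matrix of a graph `G` with `n` vertices without `C_{2k}`, and let `A = (⟨u i, v j⟩)` with real
vectors of squared length at most `w`, that is, `γ₂(A) ≤ w`.  Then `G` has at most `16 (k - 1) w ^ 2 n` edges.  Hence a graph
without `C_{2k}` with at least `c n ^ (1 + 1 / k)` edges has `γ₂ ≥ (c / (16 (k - 1))) ^ (1 / 2) n ^ (1 / (2 k))`.  On the other
hand every graph all of whose subgraphs have a vertex of degree at most `d` has `γ₂ ≤ 2 √d`.  So for all graphs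
without `C_{2k}` the factorization norm is, up to a factor that depends only on `k`, the square root of the degeneracy.
The upper bound for the number of edges holds for every real matrix which vanishes outside the edges and has entries of
absolute value between `1` and `β` at the edges, with `w ^ 2` replaced by `w ^ 2 β ^ 4`; `G` may be very irregular.

Proof.  Restrict to a set of vertices with maximal density `K`; then all degrees `d i` are at least `K` and the average
degree is `2 K`.  Let `M = X B Y` with the diagonal matrices `X ^ 2 = K / d i`, `Y ^ 2 = 1 / d j`, and `P = Mᵀ M`.  The matrix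
`M (1 + τ P)⁻¹` has operator norm at most `1 / (2 √τ)`, so `B` pairs with `X M (1 + τ P)⁻¹ Y⁻¹` to at most
`w √(K n / (2 τ)) √n`.  On the other hand this is at least `K n - τ Q`, where `Q` is a weighted number of closed walks of length
four.  Between the neighbourhoods of two adjacent vertices `x`, `y` there are at most `(2 k - 2) (d x + d y)` edges, as a
path with `2 k - 2` vertices between them closes up to `C_{2k}`; with the weights this gives `Q ≤ 4 (k - 1) K n`.  With the
best `τ` the bound for `K` follows.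
-/

set_option autoImplicit false

namespace Pool.Agent.Results.MP_11d263_co.FactorizationNorm

open Finset

/-- The vectors `u i`, `v j` have squared length at most `w`, the scalar product of `u i` and `v j` is zero if `i` and `j` are
not adjacent (in particular for `i = j`), and its absolute value is between `1` and `β` if they are adjacent. -/
def Represents {n L : ℕ} (G : SimpleGraph (Fin n)) (w β : ℝ) (u v : Fin n → Fin L → ℝ) : Prop :=
  (∀ i, ∑ l, u i l ^ 2 ≤ w) ∧ (∀ j, ∑ l, v j l ^ 2 ≤ w) ∧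
    (∀ i j, ¬ G.Adj i j → ∑ l, u i l * v j l = 0) ∧
    (∀ i j, G.Adj i j → 1 ≤ |∑ l, u i l * v j l| ∧ |∑ l, u i l * v j l| ≤ β)

/-- **Factorization norm of graphs without `C_{2k}`.** -/
theorem result :
    (∀ k : ℕ, 2 ≤ k → ∀ (n L : ℕ) (G : SimpleGraph (Fin n)) [DecidableRel G.Adj] (w β : ℝ)
      (u v : Fin n → Fin L → ℝ), Represents G w β u v → (SimpleGraph.cycleGraph (2 * k)).Free G →
      (G.edgeFinset.card : ℝ) ≤ 16 * ((k : ℝ) - 1) * (w ^ 2 * β ^ 4) * n ∧
      ∀ U : Finset (Fin n), U.Nonempty →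
        ∃ i ∈ U, ((#{j ∈ U | G.Adj i j} : ℕ) : ℝ) ≤ 32 * ((k : ℝ) - 1) * (w ^ 2 * β ^ 4)) ∧
    (∀ k : ℕ, 2 ≤ k → ∀ c : ℝ, 0 < c → ∀ (n L : ℕ) (G : SimpleGraph (Fin n)) [DecidableRel G.Adj] (w : ℝ)
      (u v : Fin n → Fin L → ℝ), Represents G w 1 u v → (SimpleGraph.cycleGraph (2 * k)).Free G →
      1 ≤ n → c * (n : ℝ) ^ (1 + 1 / (k : ℝ)) ≤ G.edgeFinset.card →
      Real.sqrt (c / (16 * ((k : ℝ) - 1))) * (n : ℝ) ^ (1 / (2 * (k : ℝ))) ≤ w) ∧
    (∀ (n d : ℕ) (G : SimpleGraph (Fin n)) [DecidableRel G.Adj], 1 ≤ d →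
      (∀ U : Finset (Fin n), U.Nonempty → ∃ i ∈ U, #{j ∈ U | G.Adj i j} ≤ d) →
      ∃ (L : ℕ) (u v : Fin n → Fin L → ℝ), Represents G (2 * Real.sqrt d) 1 u v) := by
  have first : ∀ k : ℕ, 2 ≤ k → ∀ (n L : ℕ) (G : SimpleGraph (Fin n)) [DecidableRel G.Adj] (w β : ℝ)
      (u v : Fin n → Fin L → ℝ), Represents G w β u v → (SimpleGraph.cycleGraph (2 * k)).Free G →
      (G.edgeFinset.card : ℝ) ≤ 16 * ((k : ℝ) - 1) * (w ^ 2 * β ^ 4) * n := by
    intro k hk n L G _ w β u v h hfree
    obtain ⟨hu, hv, h0, h1⟩ := h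
    have := Pool.Agent.TH528.GN.edges_le_cycle G hk hfree u v β w h0 h1 hu hv
    rwa [Fintype.card_fin] at this
  refine ⟨fun k hk n L G _ w β u v h hfree => ⟨first k hk n L G w β u v h hfree, ?_⟩, ?_, ?_⟩
  · intro U hU
    obtain ⟨hu, hv, h0, h1⟩ := h
    exact Pool.Agent.TH528.GN.degenerate_of_represents G hk hfree u v β w h0 h1 hu hv U hU
  · intro k hk c hc n L G _ w u v h hfree hn hedge
    have h2 := first k hk n L G w 1 u v h hfree
    have hn0 : (0 : ℝ) < n := by exact_mod_cast hn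
    have hk0 : (0 : ℝ) < k := by exact_mod_cast (by omega : 0 < k)
    have hk1 : (0 : ℝ) < (k : ℝ) - 1 := by
      have : (2 : ℝ) ≤ k := by exact_mod_cast hk
      linarith
    have hw0 : 0 ≤ w := (sum_nonneg fun l _ => sq_nonneg _).trans (h.1 ⟨0, by omega⟩)
    have h3 : c * (n : ℝ) ^ (1 / (k : ℝ)) ≤ 16 * ((k : ℝ) - 1) * w ^ 2 := by
      have h4 : c * (n : ℝ) ^ (1 / (k : ℝ)) * n ≤ 16 * ((k : ℝ) - 1) * w ^ 2 * n := by
        calc c * (n : ℝ) ^ (1 / (k : ℝ)) * n = c * (n : ℝ) ^ (1 + 1 / (k : ℝ)) := by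
              rw [mul_assoc, ← Real.rpow_add_one hn0.ne']
              congr 2
              ring
          _ ≤ G.edgeFinset.card := hedge
          _ ≤ 16 * ((k : ℝ) - 1) * (w ^ 2 * 1 ^ 4) * n := h2
          _ = 16 * ((k : ℝ) - 1) * w ^ 2 * n := by ring
      exact le_of_mul_le_mul_right h4 hn0
    have h5 : (Real.sqrt (c / (16 * ((k : ℝ) - 1))) * (n : ℝ) ^ (1 / (2 * (k : ℝ)))) ^ 2 ≤ w ^ 2 := by
      rw [mul_pow, Real.sq_sqrt (by positivity), ← Real.rpow_natCast ((n : ℝ) ^ (1 / (2 * (k : ℝ)))) 2,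
        ← Real.rpow_mul hn0.le]
      have h6 : 1 / (2 * (k : ℝ)) * ((2 : ℕ) : ℝ) = 1 / (k : ℝ) := by
        push_cast
        field_simp
      rw [h6, div_mul_eq_mul_div, div_le_iff₀ (by positivity), mul_comm (w ^ 2)]
      exact h3
    exact le_of_pow_le_pow_left₀ two_ne_zero hw0 h5
  · intro n d G _ hd h
    obtain ⟨u, v, hu, hv, huv⟩ := Pool.Agent.TH528.GN.represents_of_degenerate G d hd h
    let e : Fin n ⊕ Fin n ≃ Fin (Fintype.card (Fin n ⊕ Fin n)) := Fintype.equivFin _
    refine ⟨_, fun i l => u i (e.symm l), fun j l => v j (e.symm l), ?_, ?_, ?_, ?_⟩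
    · intro i
      rw [e.symm.sum_comp (fun l => u i l ^ 2)]
      exact hu i
    · intro j
      rw [e.symm.sum_comp (fun l => v j l ^ 2)]
      exact hv j
    · intro i j hij
      rw [e.symm.sum_comp (fun l => u i l * v j l), huv, if_neg hij]
    · intro i j hij
      rw [e.symm.sum_comp (fun l => u i l * v j l), huv, if_pos hij]
      simp

end Pool.Agent.Results.MP_11d263_co.FactorizationNorm
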